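import Pool.Agent.helper62.RS.SpecS

set_option autoImplicit false

open scoped MatrixGroups ContDiff Topology UpperHalfPlane
open UpperHalfPlane MeasureTheory Filter Set

namespace Pool.Agent.RS

theorem SOD : SOD_stmt := by
  intro μ W hμ hW hW0 hW1 hode t ht
  have hd0 : ∀ x, HasDerivAt W (deriv W x) x := fun x =>
    ((hW.differentiable two_ne_zero) x).hasDerivAt
  have hdW : ContDiff ℝ 1 (deriv W) := by
    have h := (contDiff_succ_iff_deriv (n := 1) (f := W)).mp (by
      have e : ((1 : WithTop ℕ∞) + 1) = 2 := by norm_num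
      rw [e]
      exact hW)
    exact h.2.2
  have hd1 : ∀ x, HasDerivAt (deriv W) (deriv (deriv W) x) x := fun x =>
    ((hdW.differentiable one_ne_zero) x).hasDerivAt
  set E : ℝ → ℝ := fun x => ‖deriv W x‖ ^ 2 + μ * ‖W x‖ ^ 2 with hE
  have hEd : ∀ x, HasDerivAt E (2 * inner ℝ (deriv W x) (deriv (deriv W) x) +
      μ * (2 * inner ℝ (W x) (deriv W x))) x := by
    intro x
    exact (hd1 x).norm_sq.add ((hd0 x).norm_sq.const_mul μ)
  have hEc : ContinuousOn E (Ici 0) := fun x _ => (hEd x).continuousAt.continuousWithinAt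
  have hEm : AntitoneOn E (Ici 0) := by
    refine antitoneOn_of_deriv_nonpos (convex_Ici 0) hEc ?_ ?_
    · intro x _
      exact (hEd x).differentiableAt.differentiableWithinAt
    · intro x hx
      rw [interior_Ici, mem_Ioi] at hx
      rw [(hEd x).deriv]
      have h1 := hode x hx
      have h2 : iteratedDeriv 2 W x = deriv (deriv W) x := by
        rw [iteratedDeriv_succ, iteratedDeriv_one]
      rw [h2] at h1
      set c : ℝ := Real.cosh x / Real.sinh x with hc
      have hc0 : 0 ≤ c := by
        have h3 := Real.cosh_pos x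
        have h4 := Real.sinh_pos_iff.mpr hx
        positivity
      have h3 : deriv (deriv W) x = -(c • deriv W x) - μ • W x := by
        have e1 : (c • deriv W x : ℂ) = (c : ℂ) * deriv W x := Complex.real_smul
        have e2 : (μ • W x : ℂ) = (μ : ℂ) * W x := Complex.real_smul
        rw [e1, e2]
        linear_combination h1
      rw [h3, inner_sub_right, inner_neg_right, real_inner_smul_right, real_inner_smul_right,
        real_inner_self_eq_norm_sq, real_inner_comm (W x) (deriv W x)]
      have h4 : 0 ≤ c * ‖deriv W x‖ ^ 2 := by positivity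
      linarith
  have hE0 : E 0 = 0 := by
    rw [hE]
    show ‖deriv W 0‖ ^ 2 + μ * ‖W 0‖ ^ 2 = 0
    rw [hW0, hW1]
    simp
  have hder : ∀ x, 0 ≤ x → deriv W x = 0 := by
    intro x hx
    have h1 := hEm (mem_Ici.mpr le_rfl) (mem_Ici.mpr hx) hx
    rw [hE0] at h1
    have h2 : ‖deriv W x‖ ^ 2 + μ * ‖W x‖ ^ 2 ≤ 0 := h1
    have h3 : 0 ≤ μ * ‖W x‖ ^ 2 := by positivity
    have h4 : ‖deriv W x‖ ^ 2 = 0 := le_antisymm (by linarith) (sq_nonneg _)
    exact norm_eq_zero.mp (pow_eq_zero_iff two_ne_zero |>.mp h4)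
  have h5 := norm_image_sub_le_of_norm_deriv_le_segment' (f := W) (f' := deriv W) (C := 0) (a := 0) (b := t)
    (fun x _ => (hd0 x).hasDerivWithinAt) (fun x hx => by rw [hder x hx.1, norm_zero]) t ⟨ht, le_rfl⟩
  rw [hW0, sub_zero, zero_mul] at h5
  exact norm_le_zero_iff.mp h5

end Pool.Agent.RS
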