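import Pool.Agent.helper62.RS.SpecS

set_option autoImplicit false

open scoped MatrixGroups ContDiff Topology UpperHalfPlane
open UpperHalfPlane MeasureTheory Filter Set

namespace Pool.Agent.RS

/-- the curve `θ ↦ k_θ z` -/
noncomputable def SPO_c (z : ℂ) (θ : ℝ) : ℂ :=
  (((Real.cos θ : ℝ) : ℂ) * z + ((Real.sin θ : ℝ) : ℂ)) / (-((Real.sin θ : ℝ) : ℂ) * z + ((Real.cos θ : ℝ) : ℂ))

theorem SPO_k (θ : ℝ) (z : ℍ) : ((kM θ • z : ℍ) : ℂ) = SPO_c z θ := by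
  rw [UpperHalfPlane.coe_specialLinearGroup_apply]
  unfold SPO_c
  simp [kM]

theorem SPO_den (θ : ℝ) (z : ℂ) (hz : 0 < z.im) : -((Real.sin θ : ℝ) : ℂ) * z + ((Real.cos θ : ℝ) : ℂ) ≠ 0 := by
  intro h
  have him := congrArg Complex.im h
  have hre := congrArg Complex.re h
  rw [Complex.add_im, neg_mul, Complex.neg_im, Complex.im_ofReal_mul, Complex.ofReal_im, Complex.zero_im,
    add_zero] at him
  have hs : Real.sin θ = 0 := by
    have h1 : Real.sin θ * z.im = 0 := by linarith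
    exact (mul_eq_zero.mp h1).resolve_right hz.ne'
  rw [Complex.add_re, neg_mul, Complex.neg_re, Complex.re_ofReal_mul, Complex.ofReal_re, Complex.zero_re, hs,
    zero_mul, neg_zero, zero_add] at hre
  have := Real.sin_sq_add_cos_sq θ
  rw [hs, hre] at this
  norm_num at this

theorem SPO_cd (z : ℂ) (hz : 0 < z.im) (θ : ℝ) : HasDerivAt (SPO_c z) (1 + (SPO_c z θ) ^ 2) θ := by
  have hcos : HasDerivAt (fun y : ℝ => ((Real.cos y : ℝ) : ℂ)) ((-Real.sin θ : ℝ) : ℂ) θ :=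
    (Real.hasDerivAt_cos θ).ofReal_comp
  have hsin : HasDerivAt (fun y : ℝ => ((Real.sin y : ℝ) : ℂ)) ((Real.cos θ : ℝ) : ℂ) θ :=
    (Real.hasDerivAt_sin θ).ofReal_comp
  have hN : HasDerivAt (fun y : ℝ => ((Real.cos y : ℝ) : ℂ) * z + ((Real.sin y : ℝ) : ℂ))
      (((-Real.sin θ : ℝ) : ℂ) * z + ((Real.cos θ : ℝ) : ℂ)) θ := (hcos.mul_const z).add hsin
  have hD : HasDerivAt (fun y : ℝ => -((Real.sin y : ℝ) : ℂ) * z + ((Real.cos y : ℝ) : ℂ))
      (-((Real.cos θ : ℝ) : ℂ) * z + ((-Real.sin θ : ℝ) : ℂ)) θ := (hsin.neg.mul_const z).add hcos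
  have hden := SPO_den θ z hz
  have h := hN.div hD hden
  have e : ((((-Real.sin θ : ℝ) : ℂ) * z + ((Real.cos θ : ℝ) : ℂ)) * (-((Real.sin θ : ℝ) : ℂ) * z + ((Real.cos θ : ℝ) : ℂ)) -
      (((Real.cos θ : ℝ) : ℂ) * z + ((Real.sin θ : ℝ) : ℂ)) * (-((Real.cos θ : ℝ) : ℂ) * z + ((-Real.sin θ : ℝ) : ℂ))) /
      (-((Real.sin θ : ℝ) : ℂ) * z + ((Real.cos θ : ℝ) : ℂ)) ^ 2 = 1 + (SPO_c z θ) ^ 2 := by
    have e' : (1 + (SPO_c z θ) ^ 2) * (-((Real.sin θ : ℝ) : ℂ) * z + ((Real.cos θ : ℝ) : ℂ)) ^ 2 =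
        (-((Real.sin θ : ℝ) : ℂ) * z + ((Real.cos θ : ℝ) : ℂ)) ^ 2 +
        (((Real.cos θ : ℝ) : ℂ) * z + ((Real.sin θ : ℝ) : ℂ)) ^ 2 := by
      unfold SPO_c
      rw [add_mul, one_mul, div_pow, div_mul_cancel₀ _ (pow_ne_zero 2 hden)]
    rw [div_eq_iff (pow_ne_zero 2 hden), e']
    push_cast
    ring
  rw [e] at h
  exact h

/-- the second derivative along a curve -/
theorem SPO_chain (F : ℂ → ℂ) (hF : ContDiffOn ℝ 2 F {w : ℂ | 0 < w.im}) (c c1 : ℝ → ℂ) (c2 : ℂ) (s0 : ℝ)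
    (hc : ∀ s, HasDerivAt c (c1 s) s) (hcm : ∀ s, 0 < (c s).im) (hc1 : HasDerivAt c1 c2 s0) :
    (∀ s, HasDerivAt (fun s => F (c s)) (fderiv ℝ F (c s) (c1 s)) s) ∧
      iteratedDeriv 2 (fun s => F (c s)) s0 =
        fderiv ℝ (fderiv ℝ F) (c s0) (c1 s0) (c1 s0) + fderiv ℝ F (c s0) c2 := by
  have hU : IsOpen {w : ℂ | 0 < w.im} := isOpen_lt continuous_const Complex.continuous_im
  have hd : ∀ w : ℂ, 0 < w.im → DifferentiableAt ℝ F w := fun w hw =>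
    (hF.differentiableOn two_ne_zero).differentiableAt (hU.mem_nhds hw)
  have hF1 : ContDiffOn ℝ 1 (fderiv ℝ F) {w : ℂ | 0 < w.im} :=
    hF.fderiv_of_isOpen hU (by norm_num)
  have hd1 : ∀ w : ℂ, 0 < w.im → DifferentiableAt ℝ (fderiv ℝ F) w := fun w hw =>
    (hF1.differentiableOn one_ne_zero).differentiableAt (hU.mem_nhds hw)
  have h1 : ∀ s, HasDerivAt (fun s => F (c s)) (fderiv ℝ F (c s) (c1 s)) s := fun s =>
    (hd (c s) (hcm s)).hasFDerivAt.comp_hasDerivAt s (hc s)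
  refine ⟨h1, ?_⟩
  have h2 : deriv (fun s => F (c s)) = fun s => fderiv ℝ F (c s) (c1 s) := funext fun s => (h1 s).deriv
  have h3 : HasDerivAt (fun s => fderiv ℝ F (c s)) (fderiv ℝ (fderiv ℝ F) (c s0) (c1 s0)) s0 :=
    (hd1 (c s0) (hcm s0)).hasFDerivAt.comp_hasDerivAt s0 (hc s0)
  have h4 := h3.clm_apply hc1
  rw [iteratedDeriv_succ, iteratedDeriv_one, h2]
  exact h4.deriv

theorem SPO_bil (D : ℂ →L[ℝ] ℂ →L[ℝ] ℂ) (r : ℝ) (w : ℂ) : D (r • w) (r • w) = r • (r • D w w) := by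
  rw [map_smul D r w]
  show r • (D w (r • w)) = r • (r • D w w)
  rw [map_smul (D w) r w]

theorem SPO_val (v : ℍ → ℂ) (z : ℍ) : QU.onC v (z : ℂ) = v z := by
  unfold QU.onC
  rw [ofComplex_apply]

theorem SPO_imexp (t : ℝ) : 0 < (((Real.exp t : ℝ) : ℂ) * Complex.I).im := by
  rw [Complex.im_ofReal_mul, Complex.I_im, mul_one]
  exact Real.exp_pos t

theorem SPO_smooth : ContDiff ℝ 2 (fun q : ℝ × ℝ => SPO_c (((Real.exp q.1 : ℝ) : ℂ) * Complex.I) q.2) := by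
  have h1 : ContDiff ℝ 2 (fun q : ℝ × ℝ => ((Real.cos q.2 : ℝ) : ℂ)) :=
    Complex.ofRealCLM.contDiff.comp (Real.contDiff_cos.comp contDiff_snd)
  have h2 : ContDiff ℝ 2 (fun q : ℝ × ℝ => ((Real.sin q.2 : ℝ) : ℂ)) :=
    Complex.ofRealCLM.contDiff.comp (Real.contDiff_sin.comp contDiff_snd)
  have h3 : ContDiff ℝ 2 (fun q : ℝ × ℝ => ((Real.exp q.1 : ℝ) : ℂ)) :=
    Complex.ofRealCLM.contDiff.comp (Real.contDiff_exp.comp contDiff_fst)
  have h4 : ContDiff ℝ 2 (fun q : ℝ × ℝ => ((Real.exp q.1 : ℝ) : ℂ) * Complex.I) := h3.mul contDiff_const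
  have h5 : ContDiff ℝ 2 (fun q : ℝ × ℝ => ((Real.cos q.2 : ℝ) : ℂ) * (((Real.exp q.1 : ℝ) : ℂ) * Complex.I) +
      ((Real.sin q.2 : ℝ) : ℂ)) := (h1.mul h4).add h2
  have h6 : ContDiff ℝ 2 (fun q : ℝ × ℝ => -((Real.sin q.2 : ℝ) : ℂ) * (((Real.exp q.1 : ℝ) : ℂ) * Complex.I) +
      ((Real.cos q.2 : ℝ) : ℂ)) := (h2.neg.mul h4).add h1
  have hne : ∀ q : ℝ × ℝ, -((Real.sin q.2 : ℝ) : ℂ) * (((Real.exp q.1 : ℝ) : ℂ) * Complex.I) +
      ((Real.cos q.2 : ℝ) : ℂ) ≠ 0 := by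
    intro q
    exact SPO_den q.2 (((Real.exp q.1 : ℝ) : ℂ) * Complex.I) (SPO_imexp q.1)
  have h7 := h5.mul (h6.inv hne)
  unfold SPO_c
  simp only [div_eq_mul_inv]
  exact h7

theorem SPO (hGLC : GLC_stmt) (hSEQ : SEQ_stmt) : SPO_stmt := by
  obtain ⟨_, _, _, _, _, _, _, haM, _, _, _, _, _, hkadd, _⟩ := hGLC
  intro v hv
  have haI : ∀ t : ℝ, ((aM t • I : ℍ) : ℂ) = ((Real.exp t : ℝ) : ℂ) * Complex.I := by
    intro t
    rw [haM t I]
    rfl
  have him : ∀ t : ℝ, 0 < (((Real.exp t : ℝ) : ℂ) * Complex.I).im := by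
    intro t
    rw [← haI t]
    exact (aM t • I : ℍ).im_pos
  refine ⟨?_, ?_⟩
  · have hc := SPO_smooth
    have hm : ∀ q : ℝ × ℝ, SPO_c (((Real.exp q.1 : ℝ) : ℂ) * Complex.I) q.2 ∈ {w : ℂ | 0 < w.im} := by
      intro q
      show 0 < (SPO_c (((Real.exp q.1 : ℝ) : ℂ) * Complex.I) q.2).im
      rw [← haI, ← SPO_k]
      exact (kM q.2 • aM q.1 • I : ℍ).im_pos
    have h := ContDiffOn.comp_contDiff hv hc hm
    have e : (fun q : ℝ × ℝ => v (kM q.2 • aM q.1 • I)) =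
        (QU.onC v) ∘ (fun q : ℝ × ℝ => SPO_c (((Real.exp q.1 : ℝ) : ℂ) * Complex.I) q.2) := by
      funext q
      show v (kM q.2 • aM q.1 • I) = QU.onC v (SPO_c (((Real.exp q.1 : ℝ) : ℂ) * Complex.I) q.2)
      rw [← haI, ← SPO_k, SPO_val]
    rw [e]
    exact h
  · intro t θ ht
    set u : ℍ → ℂ := fun z => v (kM θ • z) with hu
    have hu2 : QU.CD 2 u := (hSEQ v (kM θ)).1 2 hv
    have hlap : QU.lap u (aM t • I) = QU.lap v (kM θ • aM t • I) := (hSEQ v (kM θ)).2 hv (aM t • I)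
    rw [← hlap]
    set F : ℂ → ℂ := QU.onC u with hF
    set y : ℝ := Real.exp t with hy
    set z : ℂ := ((y : ℝ) : ℂ) * Complex.I with hz
    have hy0 : 0 < y := Real.exp_pos t
    -- the radial curve
    have e1 : (fun t' : ℝ => v (kM θ • aM t' • I)) = fun t' : ℝ => F (((Real.exp t' : ℝ) : ℂ) * Complex.I) := by
      funext t'
      rw [← haI, hF, SPO_val]
    have hr1 : ∀ s : ℝ, HasDerivAt (fun t' : ℝ => ((Real.exp t' : ℝ) : ℂ) * Complex.I)
        (((Real.exp s : ℝ) : ℂ) * Complex.I) s := fun s => ((Real.hasDerivAt_exp s).ofReal_comp).mul_const _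
    obtain ⟨p1, p2⟩ := SPO_chain F hu2 _ _ _ t hr1 him (hr1 t)
    -- the circle
    have e2 : (fun θ' : ℝ => v (kM θ' • aM t • I)) = fun θ' : ℝ => F (SPO_c z (θ' - θ)) := by
      funext θ'
      have h1 : kM θ' = kM θ * kM (θ' - θ) := by
        rw [← hkadd]
        congr 1
        ring
      rw [h1, mul_smul]
      show u (kM (θ' - θ) • aM t • I) = F (SPO_c z (θ' - θ))
      rw [hz, ← haI, ← SPO_k, hF, SPO_val]
    have hzim : 0 < z.im := him t
    have hs1 : ∀ s : ℝ, HasDerivAt (fun θ' : ℝ => SPO_c z (θ' - θ)) (1 + (SPO_c z (s - θ)) ^ 2) s := by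
      intro s
      have h1 := SPO_cd z hzim (s - θ)
      have h2 : HasDerivAt (fun θ' : ℝ => θ' - θ) 1 s := (hasDerivAt_id s).sub_const θ
      have h3 := h1.scomp s h2
      rw [one_smul] at h3
      exact h3
    have hsm : ∀ s : ℝ, 0 < (SPO_c z (s - θ)).im := by
      intro s
      rw [hz, ← haI, ← SPO_k]
      exact (kM (s - θ) • aM t • I : ℍ).im_pos
    have hs2 : HasDerivAt (fun s : ℝ => 1 + (SPO_c z (s - θ)) ^ 2)
        (2 * SPO_c z (θ - θ) * (1 + (SPO_c z (θ - θ)) ^ 2)) θ := by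
      have h1 := ((hs1 θ).pow 2).const_add 1
      have e : ((2 : ℕ) : ℂ) * SPO_c z (θ - θ) ^ (2 - 1) * (1 + SPO_c z (θ - θ) ^ 2) =
          2 * SPO_c z (θ - θ) * (1 + (SPO_c z (θ - θ)) ^ 2) := by
        norm_num
      rw [e] at h1
      exact h1
    obtain ⟨_, q2⟩ := SPO_chain F hu2 _ _ _ θ hs1 hsm hs2
    rw [e1, e2, q2, p2, (p1 t).deriv]
    have hc0 : SPO_c z (θ - θ) = z := by
      rw [sub_self]
      unfold SPO_c
      rw [Real.cos_zero, Real.sin_zero]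
      push_cast
      ring
    rw [hc0]
    have hzz : z ^ 2 = -((y : ℝ) : ℂ) ^ 2 := by
      rw [hz, mul_pow, Complex.I_sq]
      ring
    have hw1 : 1 + z ^ 2 = (1 - y ^ 2 : ℝ) • (1 : ℂ) := by
      rw [hzz, Complex.real_smul]
      push_cast
      ring
    have hw2 : 2 * z * (1 + z ^ 2) = (2 * y * (1 - y ^ 2) : ℝ) • Complex.I := by
      rw [hzz, hz, Complex.real_smul]
      push_cast
      ring
    have hw3 : z = (y : ℝ) • Complex.I := by
      rw [hz, Complex.real_smul]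
    have hlapv : QU.lap u (aM t • I) = -((y : ℂ) ^ 2) * (fderiv ℝ (fderiv ℝ F) z 1 1 +
        fderiv ℝ (fderiv ℝ F) z Complex.I Complex.I) := by
      unfold QU.lap
      have h1 : ((aM t • I : ℍ) : ℂ) = z := haI t
      have h2 : (aM t • I : ℍ).im = y := by
        have : (aM t • I : ℍ).im = ((aM t • I : ℍ) : ℂ).im := rfl
        rw [this, h1, hz]
        simp
      rw [h1, h2, Complex.real_smul]
      push_cast
      ring
    rw [hlapv]
    set A : ℂ := fderiv ℝ (fderiv ℝ F) z 1 1 with hA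
    set B : ℂ := fderiv ℝ (fderiv ℝ F) z Complex.I Complex.I with hB
    set G : ℂ := fderiv ℝ F z Complex.I with hG
    have k1 : fderiv ℝ (fderiv ℝ F) z z z = (y : ℂ) ^ 2 * B := by
      have : fderiv ℝ (fderiv ℝ F) z ((y : ℝ) • Complex.I) ((y : ℝ) • Complex.I) = (y : ℂ) ^ 2 * B := by
        rw [SPO_bil, Complex.real_smul, Complex.real_smul, ← hB]
        ring
      rw [← hw3] at this
      exact this
    have k2 : fderiv ℝ F z z = (y : ℂ) * G := by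
      have : fderiv ℝ F z ((y : ℝ) • Complex.I) = (y : ℂ) * G := by
        rw [map_smul, Complex.real_smul]
      rw [← hw3] at this
      exact this
    have k3 : fderiv ℝ (fderiv ℝ F) z (1 + z ^ 2) (1 + z ^ 2) = (1 - (y : ℂ) ^ 2) ^ 2 * A := by
      rw [hw1, SPO_bil, Complex.real_smul, Complex.real_smul, ← hA]
      push_cast
      ring
    have k4 : fderiv ℝ F z (2 * z * (1 + z ^ 2)) = 2 * (y : ℂ) * (1 - (y : ℂ) ^ 2) * G := by
      rw [hw2, map_smul, Complex.real_smul]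
      push_cast
      ring
    rw [k1, k2, k3, k4]
    have hy1 : 1 < y := by
      rw [hy]
      exact Real.one_lt_exp_iff.mpr ht
    have hc : Real.cosh t / Real.sinh t = (y ^ 2 + 1) / (y ^ 2 - 1) := by
      have h1 : Real.cosh t = (y ^ 2 + 1) / (2 * y) := by
        rw [Real.cosh_eq, Real.exp_neg, ← hy]
        field_simp
      have h2 : Real.sinh t = (y ^ 2 - 1) / (2 * y) := by
        rw [Real.sinh_eq, Real.exp_neg, ← hy]
        field_simp
      have h3 : y ^ 2 - 1 ≠ 0 := by nlinarith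
      rw [h1, h2]
      field_simp
    have hsh : (4 * Real.sinh t ^ 2)⁻¹ = y ^ 2 / (y ^ 2 - 1) ^ 2 := by
      have h2 : Real.sinh t = (y ^ 2 - 1) / (2 * y) := by
        rw [Real.sinh_eq, Real.exp_neg, ← hy]
        field_simp
      have h3 : y ^ 2 - 1 ≠ 0 := by nlinarith
      rw [h2]
      field_simp
      norm_num
    rw [hc, hsh]
    have hyc : ((y : ℂ) ^ 2 - 1) ≠ 0 := by
      have h3 : y ^ 2 - 1 ≠ 0 := by nlinarith
      intro h
      apply h3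
      exact_mod_cast h
    push_cast
    field_simp
    ring

end Pool.Agent.RS
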